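import Mathlib
import Pool.Agent.H523R3.TransMain

set_option autoImplicit false

/-!
# MP_ff81d5_co, Q1: the transversal ratios of polytopes and spheres tend to one

The definitions of `tauP`, `tauS` (the limits superior of the largest transversal ratios of
boundary complexes of simplicial `d`-polytopes, respectively of simplicial `(d-1)`-spheres) and of
all notions they use are in `Pool.Agent.H523R3.TransDefs`.
-/

namespace Pool.Agent.Results.MP_ff81d5_co.LimitOne

open Pool.Agent.H523R3.Trans Filter

/-- The sequences `τ^P_d` and `τ^S_d` tend to `1` as `d` tends to infinity. -/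
theorem result : Tendsto tauP atTop (nhds 1) ∧ Tendsto tauS atTop (nhds 1) :=
  ⟨tendsto_const_nhds.congr' (by
      filter_upwards [eventually_ge_atTop 4] with d hd using (tauP_eq_one hd).symm),
    tendsto_const_nhds.congr' (by
      filter_upwards [eventually_ge_atTop 4] with d hd using (tauS_eq_one hd).symm)⟩

end Pool.Agent.Results.MP_ff81d5_co.LimitOne
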