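import Mathlib
import Pool.Agent.R786.TauAll

set_option autoImplicit false

/-!
# MP_ff81d5_co, Q2: the sequences of transversal ratios are weakly increasing

The definitions of `tauP`, `tauS` (the limits superior of the largest transversal ratios of
boundary complexes of simplicial `d`-polytopes, respectively of simplicial `(d-1)`-spheres) and of
all notions they use are in `Pool.Agent.H523R3.TransDefs`.
-/

namespace Pool.Agent.Results.MP_ff81d5_co.WeaklyIncreasing

open Pool.Agent.H523R3.Trans

/-- Both sequences `τ^P_d` and `τ^S_d` are weakly increasing on `d ≥ 2`. -/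
theorem result : ∀ d e : ℕ, 2 ≤ d → d ≤ e → tauP d ≤ tauP e ∧ tauS d ≤ tauS e :=
  fun _ _ hd hde => ⟨Pool.Agent.R786.TauAll.monoP hd (hd.trans hde) hde,
    Pool.Agent.R786.TauAll.monoS hd (hd.trans hde) hde⟩

end Pool.Agent.Results.MP_ff81d5_co.WeaklyIncreasing
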